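import Pool.Agent.H69.Ons2

namespace Pool.Agent.Results.MP_e38963_al.Counter
open Pool.Agent.H69.Ons

/-- A countable operator norm stable group `G`, an infinite group `H` and two central embeddings
`H → G` whose amalgamated free product `G *_H G` is not operator norm stable. -/
theorem result : ∃ (G H : Type) (_ : Group G) (_ : Group H) (φ : Bool → H →* G),
    Countable G ∧ Stable G ∧ Infinite H ∧ (∀ i, Function.Injective (φ i)) ∧
    (∀ i h, φ i h ∈ Subgroup.center G) ∧
    ¬ Stable (Monoid.PushoutI (G := fun _ : Bool => G) φ) :=
  ⟨HG, Multiplicative V, inferInstance, inferInstance, io, inferInstance, HG_stable,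
    inferInstanceAs (Infinite V), io_inj, io_cent, not_stable⟩

end Pool.Agent.Results.MP_e38963_al.Counter
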